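import Pool.Agent.T2H59.RR.R11

open Filter Topology Set MeasureTheory

namespace Pool.Agent.Results.MP_b43024_an.BoundedSet

open Pool.Agent.T2H59.RR

/-- **The set `B` of the positive initial triples with bounded solution** of
`x_{n+1} = 2 x_{n-2} / (1 + x_n + x_{n-1})`; `term p n` is the term `x_{n-2}` of the solution with
initial triple `p`, and `G a b c = abc + (1-a)(1-b)(1-c)`. -/
theorem result :
    -- the definitions describe the solutions of the recurrence
    (∀ p ∈ Pos, term p 0 = p.1 ∧ term p 1 = p.2.1 ∧ term p 2 = p.2.2 ∧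
      ∀ n, 0 < term p n ∧
        term p (n + 3) = 2 * term p n / (1 + term p (n + 2) + term p (n + 1))) ∧
    -- (1) the set `B` in terms of countably many explicit polynomial inequalities
    B = {p | p ∈ Pos ∧ ∀ n, 0 ≤ G (term p n) (term p (n + 1)) (term p (n + 2))} ∧
    -- (2) along every solution `G` does not increase
    (∀ p ∈ Pos, Antitone fun n => G (term p n) (term p (n + 1)) (term p (n + 2))) ∧
    -- (3) the bounded solutions tend to `1/2` or to the three-cycle `0, 1, 1`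
    (∀ p ∈ B, (Tendsto (term p) atTop (𝓝 (1/2)) ∧
        Tendsto (fun n => G (term p n) (term p (n + 1)) (term p (n + 2))) atTop (𝓝 (1/4))) ∨
      ((∃ i, i < 3 ∧ Cyc (term p) i) ∧
        Tendsto (fun n => G (term p n) (term p (n + 1)) (term p (n + 2))) atTop (𝓝 0))) ∧
    -- the first case holds exactly when `G` never falls below `1/4`
    (∀ p ∈ Pos, Tendsto (term p) atTop (𝓝 (1/2)) ↔
      ∀ n, 1/4 ≤ G (term p n) (term p (n + 1)) (term p (n + 2))) ∧
    -- (4) for the unbounded solutions one residue class tends to infinity, the others to zero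
    (∀ p ∈ Pos, p ∉ B → (∃! i, i < 3 ∧ Blow (term p) i) ∧
      Tendsto (fun n => G (term p n) (term p (n + 1)) (term p (n + 2))) atTop atBot) ∧
    -- (5) it can be read off as soon as `G` is negative: one of the three terms is larger than one
    (∀ p ∈ Pos, ∀ n, G (term p n) (term p (n + 1)) (term p (n + 2)) < 0 →
      (∃ j, n ≤ j ∧ j ≤ n + 2 ∧ 1 < term p j) ∧
        ∀ j, n ≤ j → 1 < term p j → Blow (term p) (j % 3)) ∧
    -- (6) the complement of `B` consists of three disjoint nonempty open sets, which `B` separates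
    (Pos \ B = U 0 ∪ U 1 ∪ U 2 ∧
      (∀ i, i < 3 → IsOpen (U i) ∧ (U i).Nonempty ∧ ∀ j, j < 3 → i ≠ j → U i ∩ U j = ∅) ∧
      ∀ C : Set (ℝ × ℝ × ℝ), IsPreconnected C → C ⊆ Pos → ∀ i j, i < 3 → j < 3 → i ≠ j →
        (C ∩ U i).Nonempty → (C ∩ U j).Nonempty → (C ∩ B).Nonempty) ∧
    -- (7) `B` contains more than the solutions which tend to `1/2`
    (∀ a : ℝ, 0 < a → a < 1/4 → ∃ s : ℝ, s ^ 2 ≤ a ∧ (a, 1 + s, 1 - s) ∈ B ∧
      ∃ i, i < 3 ∧ Cyc (term (a, 1 + s, 1 - s)) i) ∧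
    -- (8) `B` has Lebesgue measure zero, and its complement is open and dense
    (volume B = 0 ∧ IsOpen (Pos \ B) ∧ Pos ⊆ closure (Pos \ B)) ∧
    -- (9) the solutions which tend to `1/2` are those with initial triple on the curve
    -- `(r, φ r, φ (φ r))`, `r > 0`, for an increasing homeomorphism `φ` of `(0, ∞)`
    (∃ φ : ℝ → ℝ, StrictMonoOn φ (Ioi 0) ∧ ContinuousOn φ (Ioi 0) ∧ BijOn φ (Ioi 0) (Ioi 0) ∧
      (∀ p : ℝ × ℝ × ℝ, (p ∈ Pos ∧ Tendsto (term p) atTop (𝓝 (1/2))) ↔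
        0 < p.1 ∧ p.2.1 = φ p.1 ∧ p.2.2 = φ (φ p.1)) ∧
      (∀ r, 1/2 < r → 1/2 < φ r ∧ φ r < r) ∧
      (∀ r, 0 < r → r < 1/2 → r < φ r ∧ φ r < 1/2)) ∧
    -- (10) the rest of `B` consists of three disjoint nonempty relatively open pieces, by the class
    -- which tends to zero
    ((∀ i, i < 3 → (∃ p ∈ B, Cyc (term p) i) ∧
      ∃ O : Set (ℝ × ℝ × ℝ), IsOpen O ∧ {p | p ∈ B ∧ Cyc (term p) i} = B ∩ O) ∧
      ∀ i j, i < 3 → j < 3 → i ≠ j → ∀ p, ¬ (Cyc (term p) i ∧ Cyc (term p) j)) := by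
  refine ⟨fun p hp => ⟨rfl, rfl, rfl, fun n => ⟨(sol hp).pos n, (sol hp).eqn n⟩⟩, ?_,
    fun p hp => (sol hp).anti, ?_, fun p hp => half_iff hp, ?_, ?_, ⟨Pos_diff, ?_, ?_⟩,
    fun a ha ha4 => seg ha ha4, ⟨vol_B, open_unbdd, dense_unbdd⟩, curve, pieces⟩
  · ext p
    constructor
    · intro h
      exact ⟨h.1, (B_iff h.1).1 h⟩
    · rintro ⟨hp, h⟩
      exact (B_iff hp).2 h
  · rintro p hp
    obtain ⟨M, hM⟩ := hp.2
    exact (sol hp.1).conv hM ((B_iff hp.1).1 hp)
  · intro p hp hB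
    obtain ⟨i, hi, hb⟩ := not_B hp hB
    exact ⟨⟨i, ⟨hi, hb⟩, fun j hj => blow_unique hj.1 hi hj.2 hb⟩, lim_neg hp hB⟩
  · intro p hp n hn
    refine ⟨?_, ?_⟩
    · obtain ⟨j, h1, h2, h3, -⟩ := exists_index (sol hp) hn
      exact ⟨j, h1, h2, h3⟩
    · intro j hj h1
      exact blow_at (sol hp) (lt_of_le_of_lt ((sol hp).anti hj) hn) h1
  · intro i hi
    exact ⟨U_open hi, U_nonempty hi, fun j hj hij => U_disj hi hj hij⟩
  · intro C hC hCP i j hi hj hij h1 h2
    exact conn hC hCP hi hj hij h1 h2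

end Pool.Agent.Results.MP_b43024_an.BoundedSet
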